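import Pool.Agent.H90.UD.Geo

/-!
# Counting
-/

set_option autoImplicit false

namespace Pool.Agent.H90.UD

open Finset

/-- all points -/
noncomputable def pset (k e : ℕ) : Finset Plane := by
  classical exact ((pts k).image (ep k) ∪ (lns k).image (el k)) ∪ (range e).image ex

theorem mem_pset {k e : ℕ} {x : Plane} :
    x ∈ pset k e ↔ ((∃ p ∈ pts k, ep k p = x) ∨ (∃ l ∈ lns k, el k l = x)) ∨
      ∃ j < e, ex j = x := by
  classical
  simp [pset, or_assoc]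

theorem pset_card {k : ℕ} (e : ℕ) (hk : 0 < k) : (pset k e).card = 3 * k ^ 3 + e := by
  classical
  unfold pset
  rw [card_union_of_disjoint, card_union_of_disjoint, card_image_of_injective _ (ep_inj hk),
    card_image_of_injective _ (el_inj hk), card_image_of_injective _ ex_inj, pts_card, lns_card,
    card_range]
  · ring
  · rw [disjoint_left]
    intro x h1 h2
    obtain ⟨p, hp, h3⟩ := mem_image.1 h1
    obtain ⟨l, hl, h4⟩ := mem_image.1 h2
    exact ep_ne_el hp hl (h3.trans h4.symm)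
  · rw [disjoint_left]
    intro x h1 h2
    obtain ⟨j, _, h4⟩ := mem_image.1 h2
    have h5 : x 0 ≤ 1 := by
      rcases mem_union.1 h1 with h | h
      · obtain ⟨p, hp, h3⟩ := mem_image.1 h
        rw [← h3]
        exact ep_fst hp
      · obtain ⟨p, hp, h3⟩ := mem_image.1 h
        rw [← h3]
        exact el_fst hp
    have h6 := far_of_fst x j h5
    rw [h4, dist_self] at h6
    linarith

theorem pset_zero (e : ℕ) : (pset 0 e).card = e := by
  classical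
  have : pset 0 e = (range e).image ex := by
    unfold pset
    have h1 : pts 0 = ∅ := by simp [pts]
    have h2 : lns 0 = ∅ := by simp [lns]
    rw [h1, h2]
    simp
  rw [this, card_image_of_injective _ ex_inj, card_range]

theorem no_unit (k e : ℕ) : ∀ p ∈ pset k e, ∀ q ∈ pset k e, dist p q ≠ 1 := by
  intro x hx y hy
  rcases mem_pset.1 hx with (⟨p, hp, rfl⟩ | ⟨p, hp, rfl⟩) | ⟨i, _, rfl⟩
  · rcases mem_pset.1 hy with (⟨q, hq, rfl⟩ | ⟨q, hq, rfl⟩) | ⟨j, _, rfl⟩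
    · exact (lt_pp hp hq).ne
    · exact ne_one_pl hp hq
    · exact (far_of_fst _ j (ep_fst hp)).ne'
  · rcases mem_pset.1 hy with (⟨q, hq, rfl⟩ | ⟨q, hq, rfl⟩) | ⟨j, _, rfl⟩
    · rw [dist_comm]
      exact ne_one_pl hq hp
    · exact (lt_ll hp hq).ne
    · exact (far_of_fst _ j (el_fst hp)).ne'
  · rcases mem_pset.1 hy with (⟨q, hq, rfl⟩ | ⟨q, hq, rfl⟩) | ⟨j, _, rfl⟩
    · rw [dist_comm]
      exact (far_of_fst _ i (ep_fst hq)).ne'
    · rw [dist_comm]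
      exact (far_of_fst _ i (el_fst hq)).ne'
    · exact ex_ex i j

/-- many incidences -/
theorem many (k : ℕ) : k ^ 4 ≤ NI (pts k) (lns k) := by
  classical
  rw [NI_eq]
  have h1 : (range k ×ˢ (range k ×ˢ range (k ^ 2))).card = k ^ 4 := by
    rw [card_product, card_product, card_range, card_range]
    ring
  rw [← h1]
  refine card_le_card_of_injOn (fun z => ((z.1, z.2.1 * z.1 + z.2.2), (z.2.1, z.2.2))) ?_ ?_
  · rintro ⟨x, a, b⟩ hz
    obtain ⟨hx, hab⟩ := mem_product.1 (mem_coe.1 hz)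
    obtain ⟨ha, hb⟩ := mem_product.1 hab
    have hx' := mem_range.1 hx
    have ha' := mem_range.1 ha
    have hb' := mem_range.1 hb
    dsimp only at hx' ha' hb'
    refine mem_coe.2 (mem_filter.2 ⟨mem_product.2 ⟨mem_product.2 ⟨hx, mem_range.2 ?_⟩,
      mem_product.2 ⟨ha, hb⟩⟩, rfl⟩)
    change a * x + b < 2 * k ^ 2
    have : a * x ≤ k * k := Nat.mul_le_mul ha'.le hx'.le
    nlinarith
  · rintro ⟨x, a, b⟩ _ ⟨x', a', b'⟩ _ h
    simp only [Prod.mk.injEq] at h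
    obtain ⟨⟨h1, _⟩, h2, h3⟩ := h
    simp only [Prod.mk.injEq]
    exact ⟨h1, h2, h3⟩

theorem block_pl {k r : ℕ} {A B : Finset Plane} (h : Easy r A B) {X Y : Finset (ℕ × ℕ)}
    (hX : X ⊆ pts k) (hY : Y ⊆ lns k) (hXA : ∀ p ∈ X, ep k p ∈ A) (hYB : ∀ l ∈ Y, el k l ∈ B) :
    NI X Y ≤ (X.card + Y.card) * (Nat.clog 2 X.card + 2) ^ r := by
  obtain ⟨f, g, hfg⟩ := h
  refine blocks r X Y (fun j p => f j (ep k p)) (fun j l => g j (el k l)) ?_
  intro p hp l hl p' hp' l' hl' hj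
  have h1 := hfg _ (hXA p hp) _ (hYB l hl) _ (hXA p' hp') _ (hYB l' hl') hj
  rw [lt_iff (hX hp) (hY hl), lt_iff (hX hp') (hY hl')] at h1
  exact not_iff_not.1 h1

theorem block_lp {k r : ℕ} {A B : Finset Plane} (h : Easy r A B) {X Y : Finset (ℕ × ℕ)}
    (hX : X ⊆ pts k) (hY : Y ⊆ lns k) (hXB : ∀ p ∈ X, ep k p ∈ B) (hYA : ∀ l ∈ Y, el k l ∈ A) :
    NI X Y ≤ (X.card + Y.card) * (Nat.clog 2 X.card + 2) ^ r := by
  obtain ⟨f, g, hfg⟩ := h
  refine blocks r X Y (fun j p => - g j (ep k p)) (fun j l => - f j (el k l)) ?_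
  intro p hp l hl p' hp' l' hl' hj
  have h1 := hfg _ (hYA l hl) _ (hXB p hp) _ (hYA l' hl') _ (hXB p' hp') (fun j => by
    have := hj j
    rwa [neg_lt_neg_iff, neg_lt_neg_iff] at this)
  rw [dist_comm, dist_comm (el k l') (ep k p'), lt_iff (hX hp) (hY hl),
    lt_iff (hX hp') (hY hl')] at h1
  exact not_iff_not.1 h1

theorem two_le {k : ℕ} (hk : 0 < k) (A : Finset Plane) {X Y : Finset (ℕ × ℕ)}
    (hX : X ⊆ pts k) (hY : Y ⊆ lns k) (hXA : ∀ p ∈ X, ep k p ∈ A) (hYA : ∀ l ∈ Y, el k l ∈ A) :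
    X.card + Y.card ≤ A.card := by
  classical
  rw [← card_image_of_injective X (ep_inj hk), ← card_image_of_injective Y (el_inj hk),
    ← card_union_of_disjoint]
  · refine card_le_card (union_subset ?_ ?_)
    · intro x hx
      obtain ⟨p, hp, rfl⟩ := mem_image.1 hx
      exact hXA p hp
    · intro x hx
      obtain ⟨p, hp, rfl⟩ := mem_image.1 hx
      exact hYA p hp
  · rw [disjoint_left]
    intro x h1 h2
    obtain ⟨p, hp, h3⟩ := mem_image.1 h1
    obtain ⟨l, hl, h4⟩ := mem_image.1 h2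
    exact ep_ne_el (hX hp) (hY hl) (h3.trans h4.symm)

/-- the main count -/
theorem count {k e r m : ℕ} (hk : 0 < k) (A B : Fin m → Finset Plane)
    (hE : ∀ i, Easy r (A i) (B i))
    (hc : ∀ p ∈ pset k e, ∀ q ∈ pset k e, p ≠ q → ∃ i, (p ∈ A i ∧ q ∈ B i) ∨ (q ∈ A i ∧ p ∈ B i)) :
    k ^ 4 ≤ (∑ i, ((A i).card + (B i).card)) * (Nat.clog 2 (3 * k ^ 3) + 2) ^ r := by
  classical
  set L := (Nat.clog 2 (3 * k ^ 3) + 2) ^ r with hL
  set A1 : Fin m → Finset (ℕ × ℕ) := fun i => (pts k).filter (fun p => ep k p ∈ A i) with hA1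
  set A2 : Fin m → Finset (ℕ × ℕ) := fun i => (pts k).filter (fun p => ep k p ∈ B i) with hA2
  set B1 : Fin m → Finset (ℕ × ℕ) := fun i => (lns k).filter (fun p => el k p ∈ B i) with hB1
  set B2 : Fin m → Finset (ℕ × ℕ) := fun i => (lns k).filter (fun p => el k p ∈ A i) with hB2
  have s1 : ∀ i, A1 i ⊆ pts k := fun i => filter_subset _ _
  have s2 : ∀ i, A2 i ⊆ pts k := fun i => filter_subset _ _
  have s3 : ∀ i, B1 i ⊆ lns k := fun i => filter_subset _ _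
  have s4 : ∀ i, B2 i ⊆ lns k := fun i => filter_subset _ _
  have m1 : ∀ i, ∀ p ∈ A1 i, ep k p ∈ A i := fun i p hp => (mem_filter.1 hp).2
  have m2 : ∀ i, ∀ p ∈ A2 i, ep k p ∈ B i := fun i p hp => (mem_filter.1 hp).2
  have m3 : ∀ i, ∀ p ∈ B1 i, el k p ∈ B i := fun i p hp => (mem_filter.1 hp).2
  have m4 : ∀ i, ∀ p ∈ B2 i, el k p ∈ A i := fun i p hp => (mem_filter.1 hp).2
  have hclog : ∀ X : Finset (ℕ × ℕ), X ⊆ pts k → (Nat.clog 2 X.card + 2) ^ r ≤ L := by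
    intro X hX
    refine Nat.pow_le_pow_left ?_ r
    have h1 := card_le_card hX
    rw [pts_card] at h1
    have h2 : X.card ≤ 3 * k ^ 3 := by omega
    have := Nat.clog_mono_right 2 h2
    omega
  have h1 : NI (pts k) (lns k) ≤ ∑ i, (NI (A1 i) (B1 i) + NI (A2 i) (B2 i)) := by
    rw [NI_eq]
    have h2 : (pts k ×ˢ lns k).filter (fun z => Inc z.1 z.2) ⊆
        univ.biUnion (fun i : Fin m => ((A1 i ×ˢ B1 i).filter (fun z => Inc z.1 z.2)) ∪
          ((A2 i ×ˢ B2 i).filter (fun z => Inc z.1 z.2))) := by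
      rintro ⟨p, l⟩ hz
      obtain ⟨hz1, hi⟩ := mem_filter.1 hz
      obtain ⟨hp, hl⟩ := mem_product.1 hz1
      obtain ⟨i, hi'⟩ := hc (ep k p) (mem_pset.2 (Or.inl (Or.inl ⟨p, hp, rfl⟩)))
        (el k l) (mem_pset.2 (Or.inl (Or.inr ⟨l, hl, rfl⟩))) (ep_ne_el hp hl)
      rw [mem_biUnion]
      refine ⟨i, mem_univ i, ?_⟩
      rcases hi' with ⟨a1, a2⟩ | ⟨a1, a2⟩
      · exact mem_union_left _ (mem_filter.2 ⟨mem_product.2 ⟨mem_filter.2 ⟨hp, a1⟩,
          mem_filter.2 ⟨hl, a2⟩⟩, hi⟩)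
      · exact mem_union_right _ (mem_filter.2 ⟨mem_product.2 ⟨mem_filter.2 ⟨hp, a2⟩,
          mem_filter.2 ⟨hl, a1⟩⟩, hi⟩)
    refine (card_le_card h2).trans (card_biUnion_le.trans (sum_le_sum fun i _ => ?_))
    rw [NI_eq, NI_eq]
    exact card_union_le _ _
  have h2 : ∀ i, NI (A1 i) (B1 i) + NI (A2 i) (B2 i) ≤ ((A i).card + (B i).card) * L := by
    intro i
    have b1 := (block_pl (hE i) (s1 i) (s3 i) (m1 i) (m3 i)).trans
      (Nat.mul_le_mul_left _ (hclog _ (s1 i)))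
    have b2 := (block_lp (hE i) (s2 i) (s4 i) (m2 i) (m4 i)).trans
      (Nat.mul_le_mul_left _ (hclog _ (s2 i)))
    have c1 := two_le hk (A i) (s1 i) (s4 i) (m1 i) (m4 i)
    have c2 := two_le hk (B i) (s2 i) (s3 i) (m2 i) (m3 i)
    calc _ ≤ ((A1 i).card + (B1 i).card) * L + ((A2 i).card + (B2 i).card) * L :=
          Nat.add_le_add b1 b2
      _ = ((A1 i).card + (B2 i).card + ((A2 i).card + (B1 i).card)) * L := by ring
      _ ≤ ((A i).card + (B i).card) * L := Nat.mul_le_mul_right L (Nat.add_le_add c1 c2)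
  calc k ^ 4 ≤ NI (pts k) (lns k) := many k
    _ ≤ _ := h1
    _ ≤ ∑ i, ((A i).card + (B i).card) * L := sum_le_sum fun i _ => h2 i
    _ = (∑ i, ((A i).card + (B i).card)) * L := (sum_mul _ _ _).symm

/-- the side -/
def side (n : ℕ) : ℕ := Nat.findGreatest (fun k => 3 * k ^ 3 ≤ n) n

theorem side_le (n : ℕ) : 3 * side n ^ 3 ≤ n :=
  Nat.findGreatest_spec (P := fun k => 3 * k ^ 3 ≤ n) (m := 0) (Nat.zero_le n) (by simp)

theorem side_pos {n : ℕ} (hn : 3 ≤ n) : 0 < side n :=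
  Nat.le_findGreatest (P := fun k => 3 * k ^ 3 ≤ n) (by omega) (by simpa using hn)

theorem side_lt {n : ℕ} (hn : 3 ≤ n) : n ≤ 27 * side n ^ 3 := by
  have h1 := side_pos hn
  have h2 : n < 3 * (side n + 1) ^ 3 := by
    by_contra h
    have h3 : 3 * (side n + 1) ^ 3 ≤ n := not_lt.1 h
    have h4 : side n + 1 ≤ n := by
      have : side n + 1 ≤ (side n + 1) ^ 3 := Nat.le_self_pow (by norm_num) _
      omega
    have h5 : side n + 1 ≤ side n :=
      Nat.le_findGreatest (P := fun k => 3 * k ^ 3 ≤ n) h4 h3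
    omega
  have h6 : (side n + 1) ^ 3 ≤ (2 * side n) ^ 3 := Nat.pow_le_pow_left (by omega) 3
  have h7 : (2 * side n) ^ 3 = 8 * side n ^ 3 := by ring
  omega

/-- the points -/
noncomputable def conf (n : ℕ) : Finset Plane := pset (side n) (n - 3 * side n ^ 3)

theorem conf_card (n : ℕ) : (conf n).card = n := by
  unfold conf
  rcases Nat.eq_zero_or_pos (side n) with h | h
  · rw [h, pset_zero]
    simp
  · rw [pset_card _ h]
    have := side_le n
    omega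

theorem clog_le {n : ℕ} (hn : 3 ≤ n) : ((Nat.clog 2 n : ℕ) : ℝ) + 2 ≤ 5 * Real.log n := by
  have h1 : (2 : ℕ) ^ (Nat.clog 2 n).pred < n := Nat.pow_pred_clog_lt_self (by norm_num) (by omega)
  have h0 : 0 < Nat.clog 2 n := Nat.clog_pos (by norm_num) (by omega)
  have h2 : ((2 : ℝ)) ^ (Nat.clog 2 n).pred < n := by exact_mod_cast h1
  have h3 : ((Nat.clog 2 n).pred : ℝ) * Real.log 2 ≤ Real.log n := by
    rw [← Real.log_pow]
    exact Real.log_le_log (by positivity) h2.le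
  have h4 : (((Nat.clog 2 n).pred : ℕ) : ℝ) = (Nat.clog 2 n : ℝ) - 1 := by
    rw [Nat.pred_eq_sub_one, Nat.cast_sub (by omega), Nat.cast_one]
  rw [h4] at h3
  have h5 := Real.log_two_gt_d9
  have h6 : 1 ≤ Real.log n := by
    rw [Real.le_log_iff_exp_le (by positivity)]
    have h7 := Real.exp_one_lt_d9
    have h8 : (3 : ℝ) ≤ n := by exact_mod_cast hn
    linarith
  have h9 : (0 : ℝ) ≤ (Nat.clog 2 n : ℝ) - 1 := by
    have : (1 : ℝ) ≤ (Nat.clog 2 n : ℝ) := by exact_mod_cast h0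
    linarith
  have h10 : ((Nat.clog 2 n : ℝ) - 1) * (1 / 2) ≤ ((Nat.clog 2 n : ℝ) - 1) * Real.log 2 :=
    mul_le_mul_of_nonneg_left (by linarith) h9
  linarith

theorem rpow_le {n : ℕ} (hn : 3 ≤ n) : (n : ℝ) ^ (4 / 3 : ℝ) ≤ 81 * (side n : ℝ) ^ 4 := by
  have h1 : (n : ℝ) ≤ (3 * (side n : ℝ)) ^ 3 := by
    have := side_lt hn
    have h2 : (n : ℝ) ≤ 27 * (side n : ℝ) ^ 3 := by exact_mod_cast this
    calc (n : ℝ) ≤ _ := h2
      _ = _ := by ring
  calc (n : ℝ) ^ (4 / 3 : ℝ) ≤ ((3 * (side n : ℝ)) ^ 3) ^ (4 / 3 : ℝ) :=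
        Real.rpow_le_rpow (by positivity) h1 (by norm_num)
    _ = (3 * (side n : ℝ)) ^ 4 := by
        rw [← Real.rpow_natCast _ 3, ← Real.rpow_mul (by positivity), ← Real.rpow_natCast _ 4]
        norm_num
    _ = 81 * (side n : ℝ) ^ 4 := by ring

theorem final (r : ℕ) {n m : ℕ} (hn : 3 ≤ n) (A B : Fin m → Finset Plane)
    (hE : ∀ i, Easy r (A i) (B i))
    (hc : ∀ p ∈ conf n, ∀ q ∈ conf n, p ≠ q → ∃ i, (p ∈ A i ∧ q ∈ B i) ∨ (q ∈ A i ∧ p ∈ B i)) :
    1 / (81 * 5 ^ r) * (n : ℝ) ^ (4 / 3 : ℝ) / Real.log n ^ r ≤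
      ∑ i, (((A i).card : ℝ) + ((B i).card : ℝ)) := by
  have h1 := count (side_pos hn) A B hE hc
  have h2 : ((side n : ℝ)) ^ 4 ≤ (∑ i, (((A i).card : ℝ) + ((B i).card : ℝ))) *
      (((Nat.clog 2 (3 * side n ^ 3) : ℕ) : ℝ) + 2) ^ r := by exact_mod_cast h1
  have h0 : (0 : ℝ) ≤ ∑ i, (((A i).card : ℝ) + ((B i).card : ℝ)) :=
    sum_nonneg fun i _ => by positivity
  have h3 : (((Nat.clog 2 (3 * side n ^ 3) : ℕ) : ℝ) + 2) ^ r ≤ (5 * Real.log n) ^ r := by
    refine pow_le_pow_left₀ (by positivity) ?_ r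
    have h4 : Nat.clog 2 (3 * side n ^ 3) ≤ Nat.clog 2 n := Nat.clog_mono_right 2 (side_le n)
    have h5 : ((Nat.clog 2 (3 * side n ^ 3) : ℕ) : ℝ) ≤ ((Nat.clog 2 n : ℕ) : ℝ) := by
      exact_mod_cast h4
    have := clog_le hn
    linarith
  have h6 := h2.trans (mul_le_mul_of_nonneg_left h3 h0)
  have h7 := rpow_le hn
  have hlog : 0 < Real.log n := Real.log_pos (by
    have : (3 : ℝ) ≤ n := by exact_mod_cast hn
    linarith)
  rw [div_le_iff₀ (by positivity), one_div, inv_mul_le_iff₀ (by positivity)]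
  calc (n : ℝ) ^ (4 / 3 : ℝ) ≤ 81 * (side n : ℝ) ^ 4 := h7
    _ ≤ 81 * ((∑ i, (((A i).card : ℝ) + ((B i).card : ℝ))) * (5 * Real.log n) ^ r) := by linarith
    _ = 81 * 5 ^ r * ((∑ i, (((A i).card : ℝ) + ((B i).card : ℝ))) * Real.log n ^ r) := by
        rw [mul_pow]
        ring

end Pool.Agent.H90.UD
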