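import Mathlib

/-!
# Incidences in blocks decided by few comparisons

`p = (x, y)` is a point, `l = (a, b)` the line `y = a x + b` (all natural numbers).
-/

set_option autoImplicit false

namespace Pool.Agent.H90.UD

open Finset

/-- the point `p` lies on or above the line `l` -/
def Ab (p l : ℕ × ℕ) : Prop := l.1 * p.1 + l.2 ≤ p.2

/-- the point `p` lies on the line `l` -/
def Inc (p l : ℕ × ℕ) : Prop := l.1 * p.1 + l.2 = p.2

instance (p l : ℕ × ℕ) : Decidable (Ab p l) := inferInstanceAs (Decidable (_ ≤ _))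
instance (p l : ℕ × ℕ) : Decidable (Inc p l) := inferInstanceAs (Decidable (_ = _))

/-- the number of incidences -/
def NI (A B : Finset (ℕ × ℕ)) : ℕ := ∑ p ∈ A, ∑ l ∈ B, if Inc p l then 1 else 0

theorem NI_eq (A B : Finset (ℕ × ℕ)) :
    NI A B = ((A ×ˢ B).filter (fun z => Inc z.1 z.2)).card := by
  rw [card_filter, sum_product]
  rfl

theorem NI_split_left (A A' B : Finset (ℕ × ℕ)) (h : A' ⊆ A) :
    NI A B = NI A' B + NI (A \ A') B := by
  unfold NI
  rw [add_comm, sum_sdiff h]

theorem NI_split_right (A B : Finset (ℕ × ℕ)) (P : ℕ × ℕ → Prop) [DecidablePred P] :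
    NI A B = NI A (B.filter P) + NI A (B.filter (fun l => ¬ P l)) := by
  unfold NI
  rw [← sum_add_distrib]
  exact sum_congr rfl fun p _ => (sum_filter_add_sum_filter_not B P _).symm

/-- all points on or above all lines: few incidences -/
theorem env (A B : Finset (ℕ × ℕ)) (h : ∀ p ∈ A, ∀ l ∈ B, Ab p l) :
    NI A B ≤ A.card + B.card := by
  classical
  rw [NI_eq]
  set E := (A ×ˢ B).filter (fun z => Inc z.1 z.2) with hE
  have hmem : ∀ z ∈ E, z.1 ∈ A ∧ z.2 ∈ B ∧ Inc z.1 z.2 := by
    intro z hz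
    have h1 := mem_filter.1 hz
    have h2 := mem_product.1 h1.1
    exact ⟨h2.1, h2.2, h1.2⟩
  have hlt : ∀ p ∈ A, ∀ p' ∈ A, ∀ l ∈ B, ∀ l' ∈ B, Inc p l → Inc p' l → Inc p l' →
      l.1 < l'.1 → ¬ p.1 < p'.1 := by
    intro p hp p' hp' l hl l' hl' h1 h2 h3 h4 h5
    have h6 := h p' hp' l' hl'
    unfold Inc at h1 h2 h3
    unfold Ab at h6
    zify at *
    nlinarith
  have h1 : (E.filter (fun z => ∃ l' ∈ B, Inc z.1 l' ∧ z.2.1 < l'.1)).card ≤ B.card := by
    refine card_le_card_of_injOn (fun z => z.2) ?_ ?_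
    · intro z hz
      exact (hmem z (mem_filter.1 hz).1).2.1
    · rintro ⟨p, l⟩ hz ⟨p', l''⟩ hz' heq
      change l = l'' at heq
      subst heq
      obtain ⟨hz1, l1, hl1, hi1, hs1⟩ := mem_filter.1 hz
      obtain ⟨hz2, l2, hl2, hi2, hs2⟩ := mem_filter.1 hz'
      obtain ⟨hp, hl, hi⟩ := hmem _ hz1
      obtain ⟨hp', _, hi'⟩ := hmem _ hz2
      have a1 := hlt p hp p' hp' l hl l1 hl1 hi hi' hi1 hs1
      have a2 := hlt p' hp' p hp l hl l2 hl2 hi' hi hi2 hs2
      have a3 : p.1 = p'.1 := by omega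
      have a4 : p = p' := by
        refine Prod.ext a3 ?_
        change l.1 * p.1 + l.2 = p.2 at hi
        change l.1 * p'.1 + l.2 = p'.2 at hi'
        rw [← hi, ← hi', a3]
      rw [a4]
  have h2 : (E.filter (fun z => ¬ ∃ l' ∈ B, Inc z.1 l' ∧ z.2.1 < l'.1)).card ≤ A.card := by
    refine card_le_card_of_injOn (fun z => z.1) ?_ ?_
    · intro z hz
      exact (hmem z (mem_filter.1 hz).1).1
    · rintro ⟨p, l⟩ hz ⟨p'', l'⟩ hz' heq
      change p = p'' at heq
      subst heq
      obtain ⟨hz1, hn1⟩ := mem_filter.1 hz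
      obtain ⟨hz2, hn2⟩ := mem_filter.1 hz'
      obtain ⟨_, hl, hi⟩ := hmem _ hz1
      obtain ⟨_, hl', hi'⟩ := hmem _ hz2
      have a1 : ¬ l.1 < l'.1 := fun hlt' => hn1 ⟨l', hl', hi', hlt'⟩
      have a2 : ¬ l'.1 < l.1 := fun hlt' => hn2 ⟨l, hl, hi, hlt'⟩
      have a3 : l.1 = l'.1 := by omega
      have a4 : l = l' := by
        refine Prod.ext a3 ?_
        change l.1 * p.1 + l.2 = p.2 at hi
        change l'.1 * p.1 + l'.2 = p.2 at hi'
        rw [a3] at hi
        omega
      rw [a4]
  have h3 := card_filter_add_card_filter_not (s := E)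
    (fun z => ∃ l' ∈ B, Inc z.1 l' ∧ z.2.1 < l'.1)
  omega

/-- the lower part of a finite set with respect to a real function -/
theorem lower_part (A : Finset (ℕ × ℕ)) (f : ℕ × ℕ → ℝ) (m : ℕ) (hm : m ≤ A.card) :
    ∃ A' ⊆ A, A'.card = m ∧ ∀ a ∈ A', ∀ a' ∈ A \ A', f a ≤ f a' := by
  classical
  induction m with
  | zero => exact ⟨∅, empty_subset _, card_empty, fun a ha => absurd ha (notMem_empty a)⟩
  | succ m ih =>
    obtain ⟨A', hA', hc, hf⟩ := ih (by omega)
    have hne : (A \ A').Nonempty := by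
      rw [← card_pos, card_sdiff_of_subset hA']
      omega
    obtain ⟨a₀, ha₀, hmin⟩ := exists_min_image (A \ A') f hne
    obtain ⟨ha₀A, ha₀A'⟩ := mem_sdiff.1 ha₀
    refine ⟨insert a₀ A', insert_subset ha₀A hA', ?_, ?_⟩
    · rw [card_insert_of_notMem ha₀A', hc]
    · intro a ha a' ha'
      obtain ⟨h1, h2⟩ := mem_sdiff.1 ha'
      have h3 : a' ∈ A \ A' := mem_sdiff.2 ⟨h1, fun h => h2 (mem_insert_of_mem h)⟩
      rcases mem_insert.1 ha with rfl | ha
      · exact hmin a' h3
      · exact hf a ha a' h3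

/-- one comparison costs a logarithm -/
theorem stair (f g : ℕ × ℕ → ℝ) (K : ℕ) : ∀ (N : ℕ) (A B : Finset (ℕ × ℕ)), A.card ≤ N →
    (∀ A' ⊆ A, ∀ B' ⊆ B, ((∀ p ∈ A', ∀ l ∈ B', f p < g l) ∨ (∀ p ∈ A', ∀ l ∈ B', ¬ f p < g l)) →
      NI A' B' ≤ (A'.card + B'.card) * K) →
    NI A B ≤ (A.card + B.card) * (K * (Nat.clog 2 A.card + 2)) := by
  classical
  intro N
  induction N using Nat.strong_induction_on with
  | _ N ih =>
    intro A B hAN hyp
    rcases Nat.eq_zero_or_pos A.card with h0 | h0
    · have : A = ∅ := card_eq_zero.1 h0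
      subst this
      simp [NI]
    rcases Nat.lt_or_ge A.card 2 with h1 | h1
    · have h2 : A.card = 1 := by omega
      obtain ⟨p, rfl⟩ := card_eq_one.1 h2
      rw [NI_split_right {p} B (fun l => f p < g l)]
      have a1 := hyp {p} (Subset.refl _) (B.filter (fun l => f p < g l)) (filter_subset _ _)
        (Or.inl fun q hq l hl => by
          rw [mem_singleton.1 hq]
          exact (mem_filter.1 hl).2)
      have a2 := hyp {p} (Subset.refl _) (B.filter (fun l => ¬ f p < g l)) (filter_subset _ _)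
        (Or.inr fun q hq l hl => by
          rw [mem_singleton.1 hq]
          exact (mem_filter.1 hl).2)
      have a3 := card_filter_add_card_filter_not (s := B) (fun l => f p < g l)
      rw [card_singleton] at *
      have a4 : Nat.clog 2 1 = 0 := Nat.clog_one_right 2
      rw [a4]
      set b1 := (B.filter (fun l => f p < g l)).card
      set b2 := (B.filter (fun l => ¬ f p < g l)).card
      calc _ ≤ (1 + b1) * K + (1 + b2) * K := Nat.add_le_add a1 a2
        _ = (2 + (b1 + b2)) * K := by ring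
        _ = (2 + B.card) * K := by rw [a3]
        _ ≤ (1 + B.card) * (K * (0 + 2)) := by
            have : (2 + B.card) * K ≤ (2 * (1 + B.card)) * K := Nat.mul_le_mul_right K (by omega)
            calc (2 + B.card) * K ≤ (2 * (1 + B.card)) * K := this
              _ = (1 + B.card) * (K * (0 + 2)) := by ring
    · obtain ⟨A1, hA1, hc1, hf1⟩ := lower_part A f (A.card / 2) (Nat.div_le_self _ _)
      set A2 := A \ A1 with hA2
      have hA2s : A2 ⊆ A := sdiff_subset
      have hc2 : A2.card = A.card - A.card / 2 := by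
        rw [hA2, card_sdiff_of_subset hA1, hc1]
      have hne : A2.Nonempty := by
        rw [← card_pos, hc2]
        omega
      obtain ⟨a₀, ha₀, hmin⟩ := exists_min_image A2 f hne
      have hlog : Nat.clog 2 A.card = Nat.clog 2 ((A.card + 2 - 1) / 2) + 1 :=
        Nat.clog_of_two_le (by norm_num) h1
      have hl1 : Nat.clog 2 A1.card ≤ Nat.clog 2 ((A.card + 2 - 1) / 2) :=
        Nat.clog_mono_right 2 (by omega)
      have hl2 : Nat.clog 2 A2.card ≤ Nat.clog 2 ((A.card + 2 - 1) / 2) :=
        Nat.clog_mono_right 2 (by omega)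
      set c := Nat.clog 2 ((A.card + 2 - 1) / 2) with hc
      set B1 := B.filter (fun l => f a₀ < g l) with hB1
      set B2 := B.filter (fun l => ¬ f a₀ < g l) with hB2
      have hB1s : B1 ⊆ B := filter_subset _ _
      have hB2s : B2 ⊆ B := filter_subset _ _
      have hb := card_filter_add_card_filter_not (s := B) (fun l => f a₀ < g l)
      have e1 : NI A B = (NI A1 B1 + NI A1 B2) + (NI A2 B1 + NI A2 B2) := by
        rw [NI_split_left A A1 B hA1, NI_split_right A1 B (fun l => f a₀ < g l),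
          NI_split_right (A \ A1) B (fun l => f a₀ < g l)]
      have b11 : NI A1 B1 ≤ (A1.card + B1.card) * K := by
        refine hyp A1 hA1 B1 hB1s (Or.inl fun p hp l hl => ?_)
        exact lt_of_le_of_lt (hf1 p hp a₀ ha₀) (mem_filter.1 hl).2
      have b22 : NI A2 B2 ≤ (A2.card + B2.card) * K := by
        refine hyp A2 hA2s B2 hB2s (Or.inr fun p hp l hl => ?_)
        have h3 := (mem_filter.1 hl).2
        have h4 := hmin p hp
        intro h5
        exact h3 (lt_of_le_of_lt h4 h5)
      have b12 : NI A1 B2 ≤ (A1.card + B2.card) * (K * (c + 2)) := by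
        have h3 := ih A1.card (by omega) A1 B2 le_rfl fun A' hA' B' hB' h =>
          hyp A' (hA'.trans hA1) B' (hB'.trans hB2s) h
        refine h3.trans (Nat.mul_le_mul_left _ (Nat.mul_le_mul_left _ (by omega)))
      have b21 : NI A2 B1 ≤ (A2.card + B1.card) * (K * (c + 2)) := by
        have h3 := ih A2.card (by omega) A2 B1 le_rfl fun A' hA' B' hB' h =>
          hyp A' (hA'.trans hA2s) B' (hB'.trans hB1s) h
        refine h3.trans (Nat.mul_le_mul_left _ (Nat.mul_le_mul_left _ (by omega)))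
      have hac : A1.card + A2.card = A.card := by omega
      have hbc : B1.card + B2.card = B.card := hb
      rw [e1, hlog]
      calc (NI A1 B1 + NI A1 B2) + (NI A2 B1 + NI A2 B2)
          ≤ ((A1.card + B1.card) * K + (A1.card + B2.card) * (K * (c + 2))) +
            ((A2.card + B1.card) * (K * (c + 2)) + (A2.card + B2.card) * K) :=
            Nat.add_le_add (Nat.add_le_add b11 b12) (Nat.add_le_add b21 b22)
        _ = ((A1.card + A2.card) + (B1.card + B2.card)) * (K * (c + 1 + 2)) := by ring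
        _ = (A.card + B.card) * (K * (c + 1 + 2)) := by rw [hac, hbc]

/-- `r` comparisons cost `r` logarithms -/
theorem blocks (r : ℕ) : ∀ (A B : Finset (ℕ × ℕ)) (f g : Fin r → ℕ × ℕ → ℝ),
    (∀ p ∈ A, ∀ l ∈ B, ∀ p' ∈ A, ∀ l' ∈ B, (∀ i, f i p < g i l ↔ f i p' < g i l') →
      (Ab p l ↔ Ab p' l')) →
    NI A B ≤ (A.card + B.card) * (Nat.clog 2 A.card + 2) ^ r := by
  classical
  induction r with
  | zero =>
    intro A B f g h
    rw [pow_zero, mul_one]
    by_cases hE : ∃ p ∈ A, ∃ l ∈ B, Inc p l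
    · obtain ⟨p, hp, l, hl, hi⟩ := hE
      refine env A B fun p' hp' l' hl' => ?_
      exact (h p hp l hl p' hp' l' hl' fun i => i.elim0).1 (le_of_eq hi)
    · push Not at hE
      have : NI A B = 0 := by
        unfold NI
        refine sum_eq_zero fun p hp => sum_eq_zero fun l hl => ?_
        rw [if_neg (hE p hp l hl)]
      omega
  | succ r ih =>
    intro A B f g h
    have h1 := stair (f 0) (g 0) ((Nat.clog 2 A.card + 2) ^ r) A.card A B le_rfl
      (fun A' hA' B' hB' hc => by
        refine (ih A' B' (fun i => f i.succ) (fun i => g i.succ)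
          fun p hp l hl p' hp' l' hl' hi => ?_).trans ?_
        · refine h p (hA' hp) l (hB' hl) p' (hA' hp') l' (hB' hl') fun i => ?_
          refine Fin.cases ?_ (fun j => hi j) i
          rcases hc with hc | hc
          · exact ⟨fun _ => hc p' hp' l' hl', fun _ => hc p hp l hl⟩
          · exact ⟨fun hh => absurd hh (hc p hp l hl), fun hh => absurd hh (hc p' hp' l' hl')⟩
        · refine Nat.mul_le_mul_left _ (Nat.pow_le_pow_left ?_ r)
          have := Nat.clog_mono_right 2 (card_le_card hA')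
          omega)
    rw [pow_succ]
    exact h1

end Pool.Agent.H90.UD
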