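import Mathlib

/-!
# Blocks decided by few comparisons
-/

set_option autoImplicit false

namespace Pool.Agent.H90.UD

/-- the Euclidean plane -/
abbrev Plane : Type := EuclideanSpace ℝ (Fin 2)

/-- On `A × B` the relation `dist a b < 1` depends only on the outcome of `r` comparisons
`f j a < g j b` of real functions of one point each. -/
def Easy (r : ℕ) (A B : Finset Plane) : Prop :=
  ∃ f g : Fin r → Plane → ℝ, ∀ a ∈ A, ∀ b ∈ B, ∀ a' ∈ A, ∀ b' ∈ B,
    (∀ j, f j a < g j b ↔ f j a' < g j b') → (dist a b < 1 ↔ dist a' b' < 1)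

end Pool.Agent.H90.UD
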