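import Pool.Agent.H90.UD.Comb
import Pool.Agent.H90.UD.Defs

/-!
# Points and lines as points of the plane at distance nearly one
-/

set_option autoImplicit false

namespace Pool.Agent.H90.UD

open Finset

theorem dist_sq (x y u v : ℝ) :
    dist (!₂[x, y] : Plane) (!₂[u, v] : Plane) ^ 2 = (x - u) ^ 2 + (y - v) ^ 2 := by
  rw [EuclideanSpace.dist_eq, Real.sq_sqrt (by positivity)]
  simp [Fin.sum_univ_two, Real.dist_eq, sq_abs]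

/-- the scale -/
noncomputable def dl (k : ℕ) : ℝ := 1 / (3 * (k : ℝ) ^ 2)

/-- the point for a point -/
noncomputable def ep (k : ℕ) (p : ℕ × ℕ) : Plane :=
  !₂[dl k * (p.1 : ℝ), dl k ^ 2 * ((p.2 : ℝ) - (p.1 : ℝ) ^ 2 / 2)]

/-- the point for a line -/
noncomputable def el (k : ℕ) (l : ℕ × ℕ) : Plane :=
  !₂[dl k * (l.1 : ℝ), -1 + dl k ^ 2 * ((l.2 : ℝ) + (l.1 : ℝ) ^ 2 / 2 - 1 / 4)]

/-- far points -/
noncomputable def ex (j : ℕ) : Plane := !₂[10 + 3 * (j : ℝ), 0]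

/-- the points -/
def pts (k : ℕ) : Finset (ℕ × ℕ) := range k ×ˢ range (2 * k ^ 2)

/-- the lines -/
def lns (k : ℕ) : Finset (ℕ × ℕ) := range k ×ˢ range (k ^ 2)

theorem pts_card (k : ℕ) : (pts k).card = 2 * k ^ 3 := by
  unfold pts
  rw [card_product, card_range, card_range]
  ring

theorem lns_card (k : ℕ) : (lns k).card = k ^ 3 := by
  unfold lns
  rw [card_product, card_range, card_range]
  ring

theorem mem_pts {k : ℕ} {p : ℕ × ℕ} (h : p ∈ pts k) :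
    0 < k ∧ (0 : ℝ) ≤ p.1 ∧ (p.1 : ℝ) ≤ k ∧ (0 : ℝ) ≤ p.2 ∧ (p.2 : ℝ) ≤ 2 * (k : ℝ) ^ 2 := by
  obtain ⟨h1, h2⟩ := mem_product.1 h
  have h3 := mem_range.1 h1
  have h4 := mem_range.1 h2
  refine ⟨by omega, by positivity, by exact_mod_cast h3.le, by positivity, by exact_mod_cast h4.le⟩

theorem mem_lns {k : ℕ} {p : ℕ × ℕ} (h : p ∈ lns k) :
    0 < k ∧ (0 : ℝ) ≤ p.1 ∧ (p.1 : ℝ) ≤ k ∧ (0 : ℝ) ≤ p.2 ∧ (p.2 : ℝ) ≤ (k : ℝ) ^ 2 := by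
  obtain ⟨h1, h2⟩ := mem_product.1 h
  have h3 := mem_range.1 h1
  have h4 := mem_range.1 h2
  refine ⟨by omega, by positivity, by exact_mod_cast h3.le, by positivity, by exact_mod_cast h4.le⟩

theorem dl_pos {k : ℕ} (hk : 0 < k) : 0 < dl k := by
  unfold dl
  positivity

theorem dl_mul {k : ℕ} (hk : 0 < k) : dl k * (3 * (k : ℝ) ^ 2) = 1 := by
  unfold dl
  have : (k : ℝ) ≠ 0 := by positivity
  field_simp

theorem dl_k {k : ℕ} (hk : 0 < k) : dl k * (k : ℝ) ≤ 1 / 3 := by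
  have h1 := dl_mul hk
  have h2 := dl_pos hk
  have h3 : (1 : ℝ) ≤ k := by exact_mod_cast hk
  have h4 : dl k * (k : ℝ) ≤ dl k * (k : ℝ) ^ 2 :=
    mul_le_mul_of_nonneg_left (by nlinarith) h2.le
  nlinarith

theorem sq_dl {k : ℕ} (hk : 0 < k) (w : ℝ) (h1 : -(3 * (k : ℝ) ^ 2) ≤ w)
    (h2 : w ≤ 3 * (k : ℝ) ^ 2) : dl k ^ 2 * w ^ 2 ≤ 1 := by
  have h3 := dl_mul hk
  have h4 := dl_pos hk
  have h5 : dl k * w ≤ 1 := by
    calc dl k * w ≤ dl k * (3 * (k : ℝ) ^ 2) := mul_le_mul_of_nonneg_left h2 h4.le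
      _ = 1 := h3
  have h6 : -1 ≤ dl k * w := by
    calc -1 = dl k * (-(3 * (k : ℝ) ^ 2)) := by rw [mul_neg, h3]
      _ ≤ dl k * w := mul_le_mul_of_nonneg_left h1 h4.le
  calc dl k ^ 2 * w ^ 2 = (dl k * w) ^ 2 := by ring
    _ ≤ 1 := by nlinarith

theorem dist_pl (k : ℕ) (p l : ℕ × ℕ) :
    dist (ep k p) (el k l) ^ 2 = 1 + dl k ^ 2 *
      (2 * ((p.2 : ℝ) - (l.1 : ℝ) * p.1 - l.2) + 1 / 2 +
        dl k ^ 2 * ((p.2 : ℝ) - (p.1 : ℝ) ^ 2 / 2 - l.2 - (l.1 : ℝ) ^ 2 / 2 + 1 / 4) ^ 2) := by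
  unfold ep el
  rw [dist_sq]
  ring

theorem above {k : ℕ} {p l : ℕ × ℕ} (hp : p ∈ pts k) (h : Ab p l) :
    1 < dist (ep k p) (el k l) := by
  have h1 := dist_pl k p l
  obtain ⟨hk, _⟩ := mem_pts hp
  have h2 := dl_pos hk
  have h3 : (l.1 : ℝ) * p.1 + l.2 ≤ p.2 := by
    unfold Ab at h
    exact_mod_cast h
  have h4 : 0 < dl k ^ 2 *
      (2 * ((p.2 : ℝ) - (l.1 : ℝ) * p.1 - l.2) + 1 / 2 +
        dl k ^ 2 * ((p.2 : ℝ) - (p.1 : ℝ) ^ 2 / 2 - l.2 - (l.1 : ℝ) ^ 2 / 2 + 1 / 4) ^ 2) := by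
    refine mul_pos (by positivity) ?_
    have h5 : 0 ≤ dl k ^ 2 *
        ((p.2 : ℝ) - (p.1 : ℝ) ^ 2 / 2 - l.2 - (l.1 : ℝ) ^ 2 / 2 + 1 / 4) ^ 2 := by positivity
    linarith
  have h6 : 1 < dist (ep k p) (el k l) ^ 2 := by linarith
  by_contra h7
  have h8 : dist (ep k p) (el k l) ≤ 1 := not_lt.1 h7
  have h9 : 0 ≤ dist (ep k p) (el k l) := dist_nonneg
  nlinarith

theorem below {k : ℕ} {p l : ℕ × ℕ} (hp : p ∈ pts k) (hl : l ∈ lns k) (h : ¬ Ab p l) :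
    dist (ep k p) (el k l) < 1 := by
  have h1 := dist_pl k p l
  obtain ⟨hk, a1, a2, a3, a4⟩ := mem_pts hp
  obtain ⟨_, b1, b2, b3, b4⟩ := mem_lns hl
  have h2 := dl_pos hk
  have h3 : (p.2 : ℝ) + 1 ≤ (l.1 : ℝ) * p.1 + l.2 := by
    unfold Ab at h
    have : p.2 + 1 ≤ l.1 * p.1 + l.2 := by omega
    exact_mod_cast this
  have hk1 : (1 : ℝ) ≤ k := by exact_mod_cast hk
  have hk2 : (1 : ℝ) ≤ (k : ℝ) ^ 2 := by nlinarith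
  have c1 : (p.1 : ℝ) ^ 2 ≤ (k : ℝ) ^ 2 := by nlinarith
  have c2 : (l.1 : ℝ) ^ 2 ≤ (k : ℝ) ^ 2 := by nlinarith
  have c3 : 0 ≤ (p.1 : ℝ) ^ 2 := by positivity
  have c4 : 0 ≤ (l.1 : ℝ) ^ 2 := by positivity
  have h5 := sq_dl hk ((p.2 : ℝ) - (p.1 : ℝ) ^ 2 / 2 - l.2 - (l.1 : ℝ) ^ 2 / 2 + 1 / 4)
    (by linarith) (by linarith)
  have h4 : dl k ^ 2 *
      (2 * ((p.2 : ℝ) - (l.1 : ℝ) * p.1 - l.2) + 1 / 2 +
        dl k ^ 2 * ((p.2 : ℝ) - (p.1 : ℝ) ^ 2 / 2 - l.2 - (l.1 : ℝ) ^ 2 / 2 + 1 / 4) ^ 2) < 0 := by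
    refine mul_neg_of_pos_of_neg (by positivity) ?_
    linarith
  have h6 : dist (ep k p) (el k l) ^ 2 < 1 := by linarith
  by_contra h7
  have h8 : 1 ≤ dist (ep k p) (el k l) := not_lt.1 h7
  nlinarith

theorem lt_iff {k : ℕ} {p l : ℕ × ℕ} (hp : p ∈ pts k) (hl : l ∈ lns k) :
    dist (ep k p) (el k l) < 1 ↔ ¬ Ab p l :=
  ⟨fun h1 h2 => absurd h1 (not_lt.2 (above hp h2).le), below hp hl⟩

theorem ne_one_pl {k : ℕ} {p l : ℕ × ℕ} (hp : p ∈ pts k) (hl : l ∈ lns k) :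
    dist (ep k p) (el k l) ≠ 1 := by
  by_cases h : Ab p l
  · exact (above hp h).ne'
  · exact (below hp hl h).ne

theorem lt_one_of_sq {x : ℝ} (hx : 0 ≤ x) (h : x ^ 2 < 1) : x < 1 := by nlinarith

theorem lt_pp {k : ℕ} {p q : ℕ × ℕ} (hp : p ∈ pts k) (hq : q ∈ pts k) :
    dist (ep k p) (ep k q) < 1 := by
  obtain ⟨hk, a1, a2, a3, a4⟩ := mem_pts hp
  obtain ⟨_, b1, b2, b3, b4⟩ := mem_pts hq
  have h2 := dl_pos hk
  have hk1 : (1 : ℝ) ≤ k := by exact_mod_cast hk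
  have hk2 : (1 : ℝ) ≤ (k : ℝ) ^ 2 := by nlinarith
  have c1 : (p.1 : ℝ) ^ 2 ≤ (k : ℝ) ^ 2 := by nlinarith
  have c2 : (q.1 : ℝ) ^ 2 ≤ (k : ℝ) ^ 2 := by nlinarith
  have c3 : 0 ≤ (p.1 : ℝ) ^ 2 := by positivity
  have c4 : 0 ≤ (q.1 : ℝ) ^ 2 := by positivity
  have h5 := sq_dl hk ((p.2 : ℝ) - (p.1 : ℝ) ^ 2 / 2 - (q.2 - (q.1 : ℝ) ^ 2 / 2))
    (by linarith) (by linarith)
  have hd := dl_k hk
  have h6 : dl k ^ 2 ≤ 1 / 9 := by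
    have : dl k ≤ 1 / 3 := by nlinarith
    nlinarith
  have h7 : dl k ^ 2 * ((p.1 : ℝ) - q.1) ^ 2 ≤ 1 / 9 := by
    have e1 : dl k * ((p.1 : ℝ) - q.1) ≤ 1 / 3 :=
      (mul_le_mul_of_nonneg_left (by linarith) h2.le).trans hd
    have e2 : -(1 / 3) ≤ dl k * ((p.1 : ℝ) - q.1) := by
      have : dl k * ((q.1 : ℝ) - p.1) ≤ 1 / 3 :=
        (mul_le_mul_of_nonneg_left (by linarith) h2.le).trans hd
      linarith
    calc dl k ^ 2 * ((p.1 : ℝ) - q.1) ^ 2 = (dl k * ((p.1 : ℝ) - q.1)) ^ 2 := by ring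
      _ ≤ 1 / 9 := by nlinarith
  refine lt_one_of_sq dist_nonneg ?_
  unfold ep
  rw [dist_sq]
  have h8 : dl k ^ 2 * (dl k ^ 2 *
      ((p.2 : ℝ) - (p.1 : ℝ) ^ 2 / 2 - (q.2 - (q.1 : ℝ) ^ 2 / 2)) ^ 2) ≤ 1 / 9 * 1 :=
    mul_le_mul h6 h5 (by positivity) (by norm_num)
  nlinarith

theorem lt_ll {k : ℕ} {p q : ℕ × ℕ} (hp : p ∈ lns k) (hq : q ∈ lns k) :
    dist (el k p) (el k q) < 1 := by
  obtain ⟨hk, a1, a2, a3, a4⟩ := mem_lns hp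
  obtain ⟨_, b1, b2, b3, b4⟩ := mem_lns hq
  have h2 := dl_pos hk
  have hk1 : (1 : ℝ) ≤ k := by exact_mod_cast hk
  have hk2 : (1 : ℝ) ≤ (k : ℝ) ^ 2 := by nlinarith
  have c1 : (p.1 : ℝ) ^ 2 ≤ (k : ℝ) ^ 2 := by nlinarith
  have c2 : (q.1 : ℝ) ^ 2 ≤ (k : ℝ) ^ 2 := by nlinarith
  have c3 : 0 ≤ (p.1 : ℝ) ^ 2 := by positivity
  have c4 : 0 ≤ (q.1 : ℝ) ^ 2 := by positivity
  have h5 := sq_dl hk ((p.2 : ℝ) + (p.1 : ℝ) ^ 2 / 2 - (q.2 + (q.1 : ℝ) ^ 2 / 2))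
    (by linarith) (by linarith)
  have hd := dl_k hk
  have h6 : dl k ^ 2 ≤ 1 / 9 := by
    have : dl k ≤ 1 / 3 := by nlinarith
    nlinarith
  have h7 : dl k ^ 2 * ((p.1 : ℝ) - q.1) ^ 2 ≤ 1 / 9 := by
    have e1 : dl k * ((p.1 : ℝ) - q.1) ≤ 1 / 3 :=
      (mul_le_mul_of_nonneg_left (by linarith) h2.le).trans hd
    have e2 : -(1 / 3) ≤ dl k * ((p.1 : ℝ) - q.1) := by
      have : dl k * ((q.1 : ℝ) - p.1) ≤ 1 / 3 :=
        (mul_le_mul_of_nonneg_left (by linarith) h2.le).trans hd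
      linarith
    calc dl k ^ 2 * ((p.1 : ℝ) - q.1) ^ 2 = (dl k * ((p.1 : ℝ) - q.1)) ^ 2 := by ring
      _ ≤ 1 / 9 := by nlinarith
  refine lt_one_of_sq dist_nonneg ?_
  unfold el
  rw [dist_sq]
  have h8 : dl k ^ 2 * (dl k ^ 2 *
      ((p.2 : ℝ) + (p.1 : ℝ) ^ 2 / 2 - (q.2 + (q.1 : ℝ) ^ 2 / 2)) ^ 2) ≤ 1 / 9 * 1 :=
    mul_le_mul h6 h5 (by positivity) (by norm_num)
  nlinarith

theorem ep_inj {k : ℕ} (hk : 0 < k) : Function.Injective (ep k) := by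
  intro p q h
  have h2 := dl_pos hk
  have e0 : ep k p 0 = ep k q 0 := by rw [h]
  have e1 : ep k p 1 = ep k q 1 := by rw [h]
  simp only [ep, PiLp.toLp_apply, Matrix.cons_val_zero, Matrix.cons_val_one] at e0 e1
  have f0 : (p.1 : ℝ) = q.1 := mul_left_cancel₀ h2.ne' e0
  have f1 := mul_left_cancel₀ (pow_ne_zero 2 h2.ne') e1
  rw [f0] at f1
  refine Prod.ext (by exact_mod_cast f0) ?_
  have : (p.2 : ℝ) = q.2 := by linarith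
  exact_mod_cast this

theorem el_inj {k : ℕ} (hk : 0 < k) : Function.Injective (el k) := by
  intro p q h
  have h2 := dl_pos hk
  have e0 : el k p 0 = el k q 0 := by rw [h]
  have e1 : el k p 1 = el k q 1 := by rw [h]
  simp only [el, PiLp.toLp_apply, Matrix.cons_val_zero, Matrix.cons_val_one] at e0 e1
  have f0 : (p.1 : ℝ) = q.1 := mul_left_cancel₀ h2.ne' e0
  have f1 := mul_left_cancel₀ (pow_ne_zero 2 h2.ne') (add_left_cancel e1)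
  rw [f0] at f1
  refine Prod.ext (by exact_mod_cast f0) ?_
  have : (p.2 : ℝ) = q.2 := by linarith
  exact_mod_cast this

theorem ex_inj : Function.Injective ex := by
  intro i j h
  have e0 : ex i 0 = ex j 0 := by rw [h]
  simp only [ex, PiLp.toLp_apply, Matrix.cons_val_zero] at e0
  have : (i : ℝ) = j := by linarith
  exact_mod_cast this

theorem ep_ne_el {k : ℕ} {p l : ℕ × ℕ} (hp : p ∈ pts k) (hl : l ∈ lns k) :
    ep k p ≠ el k l := by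
  intro h
  obtain ⟨hk, a1, a2, a3, a4⟩ := mem_pts hp
  obtain ⟨_, b1, b2, b3, b4⟩ := mem_lns hl
  have h2 := dl_pos hk
  have h3 := dl_mul hk
  have e1 : ep k p 1 = el k l 1 := by rw [h]
  simp only [ep, el, PiLp.toLp_apply, Matrix.cons_val_one, Matrix.cons_val_zero] at e1
  have hk1 : (1 : ℝ) ≤ k := by exact_mod_cast hk
  have hk2 : (1 : ℝ) ≤ (k : ℝ) ^ 2 := by nlinarith
  have c1 : (p.1 : ℝ) ^ 2 ≤ (k : ℝ) ^ 2 := by nlinarith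
  have c2 : (l.1 : ℝ) ^ 2 ≤ (k : ℝ) ^ 2 := by nlinarith
  have hd := dl_k hk
  have h5 : dl k ≤ 1 / 3 := by nlinarith
  have h6 : 1 = dl k * (dl k * ((l.2 : ℝ) + (l.1 : ℝ) ^ 2 / 2 - 1 / 4 - (p.2 - (p.1 : ℝ) ^ 2 / 2))) := by
    linear_combination e1
  have h7 : dl k * ((l.2 : ℝ) + (l.1 : ℝ) ^ 2 / 2 - 1 / 4 - (p.2 - (p.1 : ℝ) ^ 2 / 2)) ≤ 1 := by
    calc _ ≤ dl k * (3 * (k : ℝ) ^ 2) := mul_le_mul_of_nonneg_left (by linarith) h2.le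
      _ = 1 := h3
  nlinarith

theorem far_of_fst (x : Plane) (j : ℕ) (h : x 0 ≤ 1) : 1 < dist x (ex j) := by
  have h1 : dist x (ex j) ^ 2 = (x 0 - (10 + 3 * (j : ℝ))) ^ 2 + (x 1 - 0) ^ 2 := by
    rw [EuclideanSpace.dist_eq, Real.sq_sqrt (by positivity)]
    simp [Fin.sum_univ_two, Real.dist_eq, sq_abs, ex]
  have h2 : (0 : ℝ) ≤ j := by positivity
  by_contra h3
  have h4 : dist x (ex j) ≤ 1 := not_lt.1 h3
  have h5 : 0 ≤ dist x (ex j) := dist_nonneg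
  nlinarith

theorem ep_fst {k : ℕ} {p : ℕ × ℕ} (hp : p ∈ pts k) : ep k p 0 ≤ 1 := by
  obtain ⟨hk, a1, a2, a3, a4⟩ := mem_pts hp
  have h2 := dl_pos hk
  have hd := dl_k hk
  simp only [ep, PiLp.toLp_apply, Matrix.cons_val_zero]
  have : dl k * (p.1 : ℝ) ≤ dl k * k := mul_le_mul_of_nonneg_left a2 h2.le
  linarith

theorem el_fst {k : ℕ} {p : ℕ × ℕ} (hp : p ∈ lns k) : el k p 0 ≤ 1 := by
  obtain ⟨hk, a1, a2, a3, a4⟩ := mem_lns hp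
  have h2 := dl_pos hk
  have hd := dl_k hk
  simp only [el, PiLp.toLp_apply, Matrix.cons_val_zero]
  have : dl k * (p.1 : ℝ) ≤ dl k * k := mul_le_mul_of_nonneg_left a2 h2.le
  linarith

theorem ex_ex (i j : ℕ) : dist (ex i) (ex j) ≠ 1 := by
  intro h
  have h1 : dist (ex i) (ex j) ^ 2 = ((10 + 3 * (i : ℝ)) - (10 + 3 * (j : ℝ))) ^ 2 + (0 - 0) ^ 2 :=
    dist_sq _ _ _ _
  rw [h] at h1
  have h2 : (9 : ℝ) * ((i : ℝ) - j) ^ 2 = 1 := by linarith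
  have h3 : (9 : ℤ) * ((i : ℤ) - j) ^ 2 = 1 := by exact_mod_cast h2
  omega

end Pool.Agent.H90.UD
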